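import Pool.Agent.Q68.OV.Graphs

/-!
# The standard conjecture C for one variety and finitely many cubic hypersurfaces `T(x, y, z) = 1`

Let `F` be a perfect field, `k` its algebraic closure (for instance `F` a prime field, or `F = k`), and
let `Z` be **one** smooth projective variety over `k`, of dimension `d`. The conjecture `C(Z)` says that
the Künneth components `π_i` of the diagonal of `Z × Z` are algebraic. For a smooth projective scheme `Y`
over `F` let `A^m(Y)` be the space of the algebraic classes of codimension `m` on `Z × Y_k` (rational
coefficients), and `B^m(Y)` the space of the sums of classes `α ∘ π_i`, `α` in `A^m(Y)`: these are the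
sums of the Künneth components, with respect to `Z`, of algebraic classes. Both are additive functors of
the Chow motive of `Y_k`, and `A^m ⊆ B^m`; they are equal if and only if the Künneth components with
respect to `Z` of the algebraic classes of codimension `m` on `Z × Y_k` are algebraic (`Stable`).

For a separated scheme `X` of finite type over `F` let `W(X)` be the weight complex of `X_k` (Gillet,
Soulé, Bondarko; a complex of Chow motives over `k` with rational coefficients, for the cohomology with
compact supports; `W(X) = h(X_k)` for smooth projective `X`), and put `A^{m,i}(X) = H^i(A^m(W(X)))` and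
`B^{m,i}(X) = H^i(B^m(W(X)))`. `At C m X` says that the maps `A^{m,i}(X) → B^{m,i}(X)` are isomorphisms
for this `m` and all `i`, `BijAll C X` that they are isomorphisms for all `m` and `i`.

**Theorem.** Let `S` be a smooth projective scheme over `F` of dimension at most `n`, for instance `Z`
if `F = k`, or a scheme such that `Z` is a union of connected components of `S_k`. There are finite lists
`L`, `L'` of trilinear forms over `F` and a finite list `G` of tripartite hypergraphs, which depend only
on `S`, `n` and `d` (not on the prime `ℓ` or on the component `Z`), with the following properties.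

(1) Each form in `L` has at least five variables in each of its three blocks, and at most `n + 2`
variables in one of them. The conjecture `C(Z)` is true if and only if the maps
`A^{m,i}(X) → B^{m,i}(X)` are isomorphisms, for all `m` and `i`, for the finitely many smooth affine cubic
hypersurfaces `X : T(x, y, z) = 1`, `T` in `L`. If it is true, they are isomorphisms for all `T`. For
`n = 3` the forms in `L` have a block of exactly five variables.

(2) It is true if and only if, for the finitely many hypersurfaces `T = 1`, `T` in `L'`, and the **one**
index `m = d - 1 + a`, `a` the number of the variables `x_i`, the maps are isomorphisms for all `i`. If it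
is true, this is so for all trilinear forms `T`.

(3) If `F` is a prime field, it is true if and only if the maps are isomorphisms for the finitely many
hypersurfaces `∑_{(i, j, l) ∈ H} x_i y_j z_l = 1`, `H` in `G`.

(4) The maps are isomorphisms for all forms with a block of at most **four** variables, and for all forms
in the indices `m ≤ a`; and for all forms and all indices if `F` is finite.

Proof. The Künneth component of `α` with respect to `Z` in the degree `i` is its component with respect
to `Y_k` in the degree `2 m - i`; it is algebraic if `Y` has dimension at most two, and for all divisors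
`α`. The schemes for which the maps are isomorphisms have the closure properties of the universality
theorem for trilinear forms (the starting engine `Y116.UV`, `Z125.UN`, `Q193.LT`, and `Q49.WU` for one
index), and these properties are finitary (`Q68.OV.Finite`, `Q68.OV.Graphs`).
-/

set_option autoImplicit false

open CategoryTheory CategoryTheory.Limits AlgebraicGeometry Pool.Agent.Y116.UV Pool.Agent.Z125.UN
  Pool.Agent.Q193.LT Pool.Agent.Q49.WU Pool.Agent.Q68.OV

universe w

namespace Pool.Agent.Results.MP_4ca46c_ag.FinitelyManyCubics

/-- Correspondences from a smooth projective variety `Z` over `k`, a union of connected components of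
`S_k`, to the schemes `Y_k`, for schemes `Y` over `F`. -/
structure OneData (F : Type) [Field F] (S : Sch F) where
  /-- the cohomology of `Z × Y_k` -/
  E : Sch F → ModuleCat.{w} ℚ
  /-- the algebraic classes of codimension `m` on `Z × Y_k` (rational coefficients) -/
  alg : ∀ (_ : ℤ) (Y : Sch F), Submodule ℚ (E Y)
  /-- the class of the graph of the inclusion of `Z` in `S_k` -/
  diag : E S
  /-- the composition `α ∘ β` of a class `α` on `Z × Y_k` with the part on `Z × Z` of a class `β` on
  `Z × S_k` -/
  comp : ∀ Y, E Y →ₗ[ℚ] E S →ₗ[ℚ] E Y
  /-- the Künneth components of the diagonal, classes on `Z × Z ⊆ Z × S_k` -/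
  pr : ℤ → E S

variable {F : Type} [Field F] {S : Sch F}

/-- The standard properties, `d` the dimension of `Z`: the class of a graph is algebraic, compositions of
algebraic correspondences are algebraic, and the Künneth components are classes on `Z × Z`. -/
structure IsOne (D : OneData.{w} F S) (d : ℤ) : Prop where
  diag_mem : D.diag ∈ D.alg d S
  comp_mem : ∀ Y, SmoothProj Y → ∀ n m : ℤ, ∀ α ∈ D.alg n Y, ∀ β ∈ D.alg m S,
    D.comp Y α β ∈ D.alg (n + m - d) Y
  square : ∀ i, D.comp S D.diag (D.pr i) = D.pr i

/-- The conjecture `C(Z)`: the Künneth components of the diagonal are algebraic. -/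
def ConjC (D : OneData.{w} F S) (d : ℤ) : Prop := ∀ i, D.pr i ∈ D.alg d S

/-- The Künneth components, with respect to `Z`, of the algebraic classes of codimension `m` on
`Z × Y_k` are algebraic. -/
def Stable (D : OneData.{w} F S) (m : ℤ) (Y : Sch F) : Prop :=
  ∀ i, ∀ α ∈ D.alg m Y, D.comp Y α (D.pr i) ∈ D.alg m Y

/-- The maps are isomorphisms in the codimension `m`. -/
def At (C : PairData.{w} F (ℤ × ℤ) ℚ) (m : ℤ) (X : Sch F) : Prop := BijAt C Prod.fst m X

/-- Known cases: the conjecture C for surfaces (applied to `Y_k`), the Künneth components of divisors,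
and the theorem of Katz and Messing. -/
structure Known (D : OneData.{w} F S) (C : PairData.{w} F (ℤ × ℤ) ℚ) (d : ℤ) : Prop where
  surfaces : ∀ Y : Sch F, SmoothProj Y → topologicalKrullDim Y.left ≤ 2 → BijAll C Y
  divisors : ∀ m : ℤ, m ≤ 1 → ∀ Y : Sch F, SmoothProj Y → At C m Y
  finite : Finite F → ConjC D d

/-- **The conjecture C for one variety and finitely many cubic hypersurfaces.** See the explanations
above. -/
theorem result {F : Type} [Field F] [PerfectField F] {S : Sch F} (hS : SmoothProj S) {n : ℕ}
    (hn : topologicalKrullDim S.left ≤ n) (d : ℤ) :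
    ∃ (L L' : List (Form F)) (G : List Graph), (∀ t ∈ L, t.Block (n + 2) ∧ ¬ t.Block 4) ∧
      ∀ (D : OneData.{w} F S) (C : PairData.{w} F (ℤ × ℤ) ℚ), IsOne D d → IsWeightPair C →
        WeightGen C → GenAt C Prod.fst →
        (∀ Y, SmoothProj Y → ∀ m, (At C m Y ↔ Stable D m Y)) → Known D C d →
        (ConjC D d ↔ ∀ t ∈ L, BijAll C t.hyp) ∧
        (ConjC D d ↔ ∀ t ∈ L', At C (d - 1 + t.a) t.hyp) ∧
        (Frac F → (ConjC D d ↔ ∀ g ∈ G, BijAll C (g.hyp F))) ∧
        (ConjC D d → ∀ t : Form F, BijAll C t.hyp) ∧
        (∀ t : Form F, t.Block 4 → BijAll C t.hyp) ∧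
        (∀ (t : Form F) (m : ℤ), m ≤ t.a → At C m t.hyp) ∧
        (Finite F → ∀ t : Form F, BijAll C t.hyp) := by
  classical
  obtain ⟨L, hL, hLS⟩ := reached S hS.ft hn
  obtain ⟨L', hLS'⟩ := reachedAt d S hS.ft
  have hGr : ∃ G : List Graph, Frac F →
      ∀ Q : Sch F → Prop, Bnd True Q → (∀ g ∈ G, Q (g.hyp F)) → Q S := by
    by_cases hF : Frac F
    · obtain ⟨G, hG⟩ := reachedG hF S hS.ft
      exact ⟨G, fun _ => hG⟩
    · exact ⟨[], fun h => absurd h hF⟩
  obtain ⟨G, hGS⟩ := hGr
  refine ⟨L.filter (fun t => ¬ t.Block 4), L', G, fun t ht => ?_, ?_⟩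
  · rw [List.mem_filter] at ht
    exact ⟨hL t ht.1, by simpa using ht.2⟩
  intro D C hD hC hg hw bij known
  have hsur := (forms_iff (C := C) hC hg 2).mp fun Y hY hd =>
    known.surfaces Y hY (by exact_mod_cast hd)
  have point : BijAll C (aff F F) := hsur.1
  have hidx : ∀ a : ℕ, d + ((a : ℤ) - 1) = d - 1 + a := fun a => by ring
  have hst' : ConjC D d → ∀ Y, SmoothProj Y → BijAll C Y := by
    intro h Y hY
    refine (bijAll_iff Y).mpr fun m => (bij Y hY m).mpr fun i α hα => ?_
    have h1 := hD.comp_mem Y hY m d α hα _ (h i)
    rwa [add_sub_cancel_right] at h1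
  have hback : At C d S → ConjC D d := by
    intro h i
    have h1 := (bij S hS d).mp h i D.diag hD.diag_mem
    rwa [hD.square] at h1
  have hall : ConjC D d → ∀ t : Form F, BijAll C t.hyp := fun h t =>
    (wg_all hg hC point).mp (hst' h) t.a t.b t.c t.T
  refine ⟨⟨fun h t _ => hall h t, fun h => ?_⟩, ⟨fun h t _ j _ => hall h t j, fun h => ?_⟩,
    fun hF => ⟨fun h g _ => (wg_graph hg hC point hF).mp (hst' h) g.a g.b g.c g.H, fun h =>
      hback ((bijAll_iff S).mp (hGS hF _ (bnd_pair hC point) h) d)⟩,
    hall, fun t ht => hsur.2 t.a t.b t.c t.T ht, fun t m hm => ?_,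
    fun h t => hall (known.finite h) t⟩
  · refine hback ((bijAll_iff S).mp (hLS _ (bnd_pair hC point) fun t ht => ?_) d)
    by_cases h4 : t.Block 4
    · exact hsur.2 t.a t.b t.c t.T h4
    · exact h t (List.mem_filter.mpr ⟨ht, by simpa using h4⟩)
  · refine hback (hLS' _ (wuni_pair hC graded_weight point) fun t ht => ?_)
    rw [hidx]
    exact h t ht
  · have h2 := (sp_at_iff hw hC graded_weight point (m - (t.a - 1))).mp
      (known.divisors _ (by omega)) t.a t.b t.c t.T
    rwa [sub_add_cancel] at h2

end Pool.Agent.Results.MP_4ca46c_ag.FinitelyManyCubics
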