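import Pool.Agent.Q69.KN.Idem

/-!
# The conjecture C and numerical idempotents

Let `W` be a Weil cohomology theory and `X` a smooth proper variety of dimension `n`.

1. The Kunneth projectors of `X` are algebraic if and only if for each `i` there is a cycle `z` of
   codimension `n` on `X × X`, with rational coefficients, such that

   * `z` has the same intersection numbers with all cycles of codimension `n` on `X × X` as the
     `i`-th Kunneth component of the diagonal, and
   * `z ∘ z` is numerically equivalent to `z`.

   The cycles for different `i` are not assumed to be orthogonal to each other: this follows (by
   counting ranks), and the starting theorem `Pool.Agent.H447.kunneth_iff_num`, in which this is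
   assumed, is a special case.

2. If for each `i` there is a cycle with the first of the two properties then every correspondence
   of degree zero which is numerically equivalent to zero is nilpotent on the cohomology of `X`.

Numerical equivalence is not assumed to be equal to homological equivalence, and no conjecture is
assumed.

Proof. For `x` numerically trivial, the trace of `x` on `H^i(X)` is, up to sign, the intersection
number of `z i` and the transpose of `x`, so it is zero, and so are the traces of the powers of `x`:
this is (2). So `z i` can be replaced by an idempotent `e i`. The traces of `e i` on the `H^l(X)` are
natural numbers `m l i` with `m i i = b_i` and `∑ i, m l i = b_l`. So `m l i = 0` for `i ≠ l`, and `e i`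
is the projector onto `H^i(X)`.
-/

open CategoryTheory AlgebraicGeometry

set_option autoImplicit false

universe u v

namespace Pool.Agent.Results.MP_4ca46c_ag.NumericalIdempotents

open Pool.Agent.H914 Pool.Agent.H447 Pool.Agent.Q69.KN VarClass Obj WeilCohomology

/-- The conjecture C for `X` holds if and only if each Kunneth component of the diagonal has the same
intersection numbers as a cycle which is an idempotent modulo numerical equivalence. -/
theorem result {k : Type u} [Field k] {𝒱 : VarClass k} {ops : CycleOps 𝒱}
    (W : WeilCohomology.{u, v} ops) (X : 𝒱.Obj) :
    (KunnethStd W X ↔ KunnethIdem W X) ∧
      (KunnethRep W X → ∀ x : (X.prod X).Cycles, (X.prod X).IsCyc X.dim x →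
        NumEquiv ops (X.prod X) X.dim x 0 →
          IsNilpotent (W.corr (W.cl _ x) : Module.End W.K (W.H X))) :=
  ⟨kunneth_iff_idem, fun h _ hx hx0 => nilpotent_of_kunnethRep h hx hx0⟩

end Pool.Agent.Results.MP_4ca46c_ag.NumericalIdempotents
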