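import Pool.Agent.TH133.PW.Kun

/-!
# The Kunneth standard conjecture, two cohomology classes at a time

Let `X` be a smooth projective variety of dimension `n` over an algebraically closed field and `𝒲` a
non-empty set of Weil cohomology theories for which the traces of the algebraic correspondences of
degree zero on the `H^j(X)` are rational and independent of the theory (`SameTracesAll`; for the
`ℓ`-adic theories this is a theorem of Deligne and of Katz and Messing). For each `i` the following
are equivalent:

* one algebraic cycle on `X × X` induces the projector onto `H^i(X)` for all the theories in `𝒲`
  (`OneProjectorForAll`), that is, its class is the Kunneth component of the diagonal;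
* for one theory in `𝒲`, and each pair of single classes `y` of degree `i` and `y'` of another degree
  `j`, some combination `φ` of algebraic correspondences, which may depend on `y` and `y'`, satisfies
  `φ(y) = y` and `φ(y') = 0` (`SeparatesForOne`);
* for one theory in `𝒲`, and classes `y, w, y', w'` of degrees `i, 2 n - i, j, 2 n - j` with `j ≠ i`: if
  `y × w + y' × w'` is orthogonal to all algebraic cycles of codimension `n` on `X × X`, then
  `tr (y w) = 0` (`DetectsForOne`);
* for one theory in `𝒲` every subspace of `H(X)` stable under the algebraic correspondences of degree
  zero is stable under the projector onto `H^i(X)` (`SplitForOne`).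
-/

open CategoryTheory AlgebraicGeometry

set_option autoImplicit false

universe u v

namespace Pool.Agent.Results.MP_4ca46c_ag.PairsOfClasses

open Pool.Agent.H914 Pool.Agent.TH133.PW

/-- The Kunneth component of degree `i` is algebraic, by the same cycle for all theories in `𝒲`, if
and only if for one theory the classes of degree `i` can be separated from those of other degrees by
algebraic correspondences, one pair of classes at a time. -/
theorem result {k : Type u} [Field k] {𝒱 : VarClass k} {ops : CycleOps 𝒱}
    (𝒲 : Set (WeilCohomology.{u, v} ops)) (hne : 𝒲.Nonempty) (X : 𝒱.Obj)
    (h𝒲 : SameTracesAll 𝒲 X) (i : ℕ) :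
    [OneProjectorForAll 𝒲 X i, SeparatesForOne 𝒲 X i, DetectsForOne 𝒲 X i,
      SplitForOne 𝒲 X i].TFAE :=
  kunneth_one_tfae hne h𝒲 i

end Pool.Agent.Results.MP_4ca46c_ag.PairsOfClasses
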